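import Mathlib
import Pool.Agent.Y844.CP.Main
import Pool.Agent.Y844.CP.Per

/-!
Discrepancy of multiple correlations along homogeneous progressions with polynomial and periodic weights.

* Weights `e(P(k))`, `P` a real polynomial with an irrational coefficient of degree at least two: the sums are
  unbounded, uniformly over all tuples of unimodular sequences. The proof extends the counting argument of
  `Pool.Agent.H633R3` (the weight `e(k² α)`) and uses Weyl's theorem.
* Periodic weights: for every period there are shifts for which the correlations of the completely multiplicative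
  function `f(n) = χ₋₄(odd part of n)` have bounded sums against all weights of this period.
-/

set_option autoImplicit false

namespace Pool.Agent.Results.MP_10145b_nt.PolynomialAndPeriodicWeights

open Finset Polynomial

open scoped ENNReal

/-- The sum `∑_{k=1}^n w(k) a_1(d(k+h_1)) ⋯ a_l(d(k+h_l))`. -/
noncomputable def corr {l : ℕ} (a : Fin l → ℕ → Circle) (h : Fin l → ℕ) (w : ℕ → ℂ) (d n : ℕ) : ℂ :=
  ∑ k ∈ Icc 1 n, w k * ∏ j, (a j (d * (k + h j)) : ℂ)

/-- `D(a, h, w)`: the supremum over `d, n ≥ 1` of the absolute values of these sums, an element of `[0, ∞]`. (The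
values of the sequences at `0` play no role.) -/
noncomputable def D {l : ℕ} (a : Fin l → ℕ → Circle) (h : Fin l → ℕ) (w : ℕ → ℂ) : ℝ≥0∞ :=
  ⨆ (d : ℕ) (_ : 1 ≤ d) (n : ℕ) (_ : 1 ≤ n), ENNReal.ofReal ‖corr a h w d n‖

/-- The assertion of the question for the weight `w`: `D(a, h, w) = ∞` for all `l ≥ 1`, all `l`-tuples `a` of
unimodular sequences and all vectors `h` of positive integers. -/
def AlwaysUnbounded (w : ℕ → ℂ) : Prop :=
  ∀ l : ℕ, 1 ≤ l → ∀ (a : Fin l → ℕ → Circle) (h : Fin l → ℕ), (∀ j, 1 ≤ h j) → D a h w = ⊤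

/-- The weight `e(P(k))`. -/
noncomputable def phase (P : ℝ[X]) (k : ℕ) : ℂ :=
  Complex.exp (2 * Real.pi * Complex.I * (P.eval (k : ℝ) : ℝ))

/-- the completely multiplicative function -/
noncomputable def f (n : ℕ) : Circle := if ordCompl[2] n % 4 = 3 then Circle.exp Real.pi else 1

theorem coe_f (n : ℕ) : (f n : ℂ) = ((Pool.Agent.Y844.CP.g n : ℤ) : ℂ) := by
  unfold f Pool.Agent.Y844.CP.g
  split_ifs
  · rw [Circle.coe_exp, Complex.exp_pi_mul_I]
    simp
  · simp

theorem phase_eq (P : ℝ[X]) : phase P = fun k : ℕ => Pool.Agent.H633R3.Corr.e (P.eval (k : ℝ)) := by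
  funext k
  rfl

/-- uniform unboundedness -/
theorem uniform_poly (P : ℝ[X]) (hP : ∃ t, 2 ≤ t ∧ Irrational (P.coeff t)) (l : ℕ) (h : Fin l → ℕ) (C : ℝ) :
    ∃ Z : ℕ, ∀ a : Fin l → ℕ → Circle, ∃ d n : ℕ, 1 ≤ d ∧ d ≤ Z ∧ 1 ≤ n ∧ n ≤ Z ∧
      C < ‖corr a h (phase P) d n‖ := by
  have hw : ∀ k : ℕ, ‖phase P k‖ = 1 := fun k => Pool.Agent.H633R3.Corr.norm_e _
  have hD : Pool.Agent.Y844.CP.Dissoc (phase P) := Pool.Agent.Y844.CP.dissoc_poly P hP
  exact Pool.Agent.Y844.CP.uniform h (phase P) hw hD C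

theorem always_poly (P : ℝ[X]) (hP : ∃ t, 2 ≤ t ∧ Irrational (P.coeff t)) : AlwaysUnbounded (phase P) := by
  intro l _ a h _
  refine ENNReal.eq_top_of_forall_nnreal_le fun r => ?_
  obtain ⟨Z, hZ⟩ := uniform_poly P hP l h r
  obtain ⟨d, n, hd, _, hn, _, hlt⟩ := hZ a
  have h1 : (r : ℝ≥0∞) ≤ ENNReal.ofReal ‖corr a h (phase P) d n‖ := by
    rw [← ENNReal.ofReal_coe_nnreal]
    exact ENNReal.ofReal_le_ofReal hlt.le
  refine h1.trans ?_
  unfold D
  exact le_iSup_of_le d (le_iSup_of_le hd (le_iSup_of_le n (le_iSup_of_le hn le_rfl)))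

theorem not_always (M : ℕ) (hM : 1 ≤ M) (w : ℕ → ℂ) (hw : ∀ k, w (k + M) = w k) (hC : ∀ k, ‖w k‖ ≤ 1) :
    ¬ AlwaysUnbounded w := by
  intro hcon
  obtain ⟨l, hl, h, hh, H⟩ := Pool.Agent.Y844.CP.periodic M hM
  have h1 := hcon l hl (fun _ => f) h hh
  have h2 : D (fun _ => f) h w ≤ ENNReal.ofReal (2 * M * 1) := by
    unfold D
    refine iSup_le fun d => iSup_le fun hd => iSup_le fun n => iSup_le fun _ => ?_
    refine ENNReal.ofReal_le_ofReal ?_
    have := H w 1 hw hC d n hd
    unfold corr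
    simp only [coe_f]
    exact this
  rw [h1] at h2
  exact absurd (top_le_iff.mp h2) ENNReal.ofReal_ne_top

theorem not_always_poly (P : ℝ[X]) (hP : ∀ t, 1 ≤ t → ∃ ρ : ℚ, P.coeff t = ρ) : ¬ AlwaysUnbounded (phase P) := by
  classical
  choose! ρ hρ using hP
  set M : ℕ := ∏ t ∈ range (P.natDegree + 1), (ρ t).den with hMdef
  have hM : 1 ≤ M := Nat.one_le_iff_ne_zero.mpr (Finset.prod_ne_zero_iff.mpr fun t _ => (ρ t).den_nz)
  refine not_always M hM (phase P) (fun k => ?_) (fun k => (Pool.Agent.H633R3.Corr.norm_e _).le)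
  have key : ∃ z : ℤ, P.eval ((k + M : ℕ) : ℝ) = P.eval (k : ℝ) + z := by
    have hz : ∀ t ∈ range (P.natDegree + 1), ∃ z : ℤ,
        P.coeff t * ((k + M : ℕ) : ℝ) ^ t = P.coeff t * (k : ℝ) ^ t + z := by
      intro t ht
      rcases Nat.eq_zero_or_pos t with rfl | ht1
      · exact ⟨0, by simp⟩
      · obtain ⟨u, hu⟩ : ∃ u : ℤ, ((k + M : ℕ) : ℤ) ^ t - (k : ℤ) ^ t = M * u := by
          have h1 : ((k + M : ℕ) : ℤ) - (k : ℤ) ∣ ((k + M : ℕ) : ℤ) ^ t - (k : ℤ) ^ t := sub_dvd_pow_sub_pow _ _ t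
          have h2 : ((k + M : ℕ) : ℤ) - (k : ℤ) = M := by push_cast; ring
          rw [h2] at h1
          exact h1
        obtain ⟨v, hv⟩ : (ρ t).den ∣ M := Finset.dvd_prod_of_mem _ ht
        refine ⟨(ρ t).num * v * u, ?_⟩
        have h3 : ((k + M : ℕ) : ℝ) ^ t = (k : ℝ) ^ t + M * u := by
          have : (((k + M : ℕ) : ℤ) : ℝ) ^ t - ((k : ℤ) : ℝ) ^ t = M * u := by exact_mod_cast hu
          push_cast at this ⊢
          linarith
        have h4 : P.coeff t * M = (ρ t).num * v := by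
          rw [hρ t ht1, hv]
          have h5 : ((ρ t : ℚ) : ℝ) * ((ρ t).den : ℝ) = ((ρ t).num : ℝ) := by
            exact_mod_cast Rat.mul_den_eq_num (ρ t)
          push_cast
          rw [← mul_assoc, h5]
        rw [h3, mul_add, ← mul_assoc, h4]
        push_cast
        ring
    choose! z hz' using hz
    refine ⟨∑ t ∈ range (P.natDegree + 1), z t, ?_⟩
    rw [Polynomial.eval_eq_sum_range, Polynomial.eval_eq_sum_range, Finset.sum_congr rfl hz',
      Finset.sum_add_distrib]
    push_cast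
    rfl
  obtain ⟨z, hz⟩ := key
  rw [phase_eq]
  simp only
  rw [hz, Pool.Agent.H633R3.Corr.e_add, (Pool.Agent.H633R3.Corr.e_eq_one_iff _).mpr ⟨z, rfl⟩, mul_one]

/-- **Polynomial and periodic weights.**

(1) Let `P` be a real polynomial with an irrational coefficient of degree at least two. For all `l`, all shifts `h`
and all `C` there is `Z` such that for ALL `l`-tuples `a` of unimodular sequences there are `d, n ≤ Z` for which the
sum with the weight `e(P(k))` has absolute value larger than `C`; in particular `D(a, h, w) = ∞` always.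

(2) There is a completely multiplicative function `f` with values `1` and `-1` such that for every `M ≥ 1` there are
`l ≥ 1` and positive shifts `h` with the following property: for every weight `w` of period `M` with `|w| ≤ C`, all
sums with `a = (f, …, f)` have absolute values at most `2 M C`. In particular the assertion of the question fails for
every bounded periodic weight, and for all weights `e(P(k))` where all coefficients of `P` of positive degree are
rational.

(3) The two weights of the question: the assertion fails for `w = 1` and holds for `w(k) = e(k² α)`, `α` irrational. -/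
theorem result :
    ((∀ P : ℝ[X], (∃ t, 2 ≤ t ∧ Irrational (P.coeff t)) →
      (∀ (l : ℕ) (h : Fin l → ℕ) (C : ℝ), ∃ Z : ℕ, ∀ a : Fin l → ℕ → Circle, ∃ d n : ℕ,
        1 ≤ d ∧ d ≤ Z ∧ 1 ≤ n ∧ n ≤ Z ∧ C < ‖corr a h (phase P) d n‖) ∧
      AlwaysUnbounded (phase P))) ∧
    ((∃ f : ℕ → Circle, (∀ m n, 1 ≤ m → 1 ≤ n → f (m * n) = f m * f n) ∧
        (∀ n, (f n : ℂ) = 1 ∨ (f n : ℂ) = -1) ∧
        ∀ M : ℕ, 1 ≤ M → ∃ l : ℕ, 1 ≤ l ∧ ∃ h : Fin l → ℕ, (∀ j, 1 ≤ h j) ∧
          ∀ (w : ℕ → ℂ) (C : ℝ), (∀ k, w (k + M) = w k) → (∀ k, ‖w k‖ ≤ C) →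
            ∀ d n : ℕ, 1 ≤ d → ‖corr (fun _ => f) h w d n‖ ≤ 2 * M * C) ∧
      (∀ P : ℝ[X], (∀ t, 1 ≤ t → ∃ ρ : ℚ, P.coeff t = ρ) → ¬ AlwaysUnbounded (phase P))) ∧
    (¬ AlwaysUnbounded (fun _ => 1) ∧ ∀ α : ℝ, Irrational α →
      AlwaysUnbounded (fun k => Complex.exp (2 * Real.pi * Complex.I * ((k : ℂ) ^ 2 * α)))) := by
  refine ⟨fun P hP => ⟨fun l h C => uniform_poly P hP l h C, always_poly P hP⟩, ⟨⟨f, ?_, ?_, ?_⟩, not_always_poly⟩,
    ?_, ?_⟩
  · intro m n hm hn
    apply Circle.ext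
    rw [Circle.coe_mul, coe_f, coe_f, coe_f, Pool.Agent.Y844.CP.g_mul m n hm hn]
    push_cast
    rfl
  · intro n
    rw [coe_f]
    rcases Pool.Agent.Y844.CP.g_pm n with h | h <;> rw [h] <;> simp
  · intro M hM
    obtain ⟨l, hl, h, hh, H⟩ := Pool.Agent.Y844.CP.periodic M hM
    refine ⟨l, hl, h, hh, fun w C hw hC d n hd => ?_⟩
    have := H w C hw hC d n hd
    unfold corr
    simp only [coe_f]
    exact this
  · exact not_always 1 le_rfl _ (fun _ => rfl) (fun _ => by simp)
  · intro α hα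
    have h1 := always_poly (C α * X ^ 2) ⟨2, le_rfl, by simpa using hα⟩
    have h2 : phase (C α * X ^ 2) = fun k : ℕ => Complex.exp (2 * Real.pi * Complex.I * ((k : ℂ) ^ 2 * α)) := by
      funext k
      unfold phase
      congr 2
      simp only [eval_mul, eval_C, eval_pow, eval_X]
      push_cast
      ring
    rw [h2] at h1
    exact h1

end Pool.Agent.Results.MP_10145b_nt.PolynomialAndPeriodicWeights
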